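import Mathlib
import Pool.Agent.SPC.All3

/-!
# Almost all connected graphs of every density have a reconstructible truncated clique lattice

For every `ε > 0` and all large `n`, for every `m`, at most an `ε`-fraction of the connected graphs
with `n` vertices and `m` edges is not reconstructible.
-/

set_option autoImplicit false

namespace Pool.Agent.Results.MP_552896_co.EveryDensity

/-- The truncated clique lattice `T(G)` is reconstructible: every truncated clique lattice `T(H)`
with the same deck of maximal filter deleted subsets is isomorphic to `T(G)`. -/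
def Reconstructible {V : Type} [Fintype V] (G : SimpleGraph V) : Prop :=
  ∀ (W : Type) [Fintype W] (H : SimpleGraph W) (f : V ≃ W),
    (∀ v : V,
      Nonempty ({s : Finset V // s.Nonempty ∧ G.IsClique (s : Set V) ∧ v ∉ s} ≃o
        {t : Finset W // t.Nonempty ∧ H.IsClique (t : Set W) ∧ f v ∉ t})) →
    Nonempty ({s : Finset V // s.Nonempty ∧ G.IsClique (s : Set V)} ≃o
      {t : Finset W // t.Nonempty ∧ H.IsClique (t : Set W)})

open Classical in
lemma bad_eq (n m : ℕ) :
    Nat.card {G : SimpleGraph (Fin n) // G.edgeSet.ncard = m ∧ ¬ Reconstructible G} =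
      Pool.Agent.SPC.bb (Pool.Agent.SPC.EX m) n := by
  have h : Nat.card {G : SimpleGraph (Fin n) // G.edgeSet.ncard = m ∧ ¬ Reconstructible G} =
      (Finset.univ.filter (fun G : SimpleGraph (Fin n) =>
        Pool.Agent.SPC.EX m (Fin n) G ∧ ¬ Pool.Agent.Pend.Rec G)).card := by
    rw [Nat.subtype_card]
    intro G
    rw [Finset.mem_filter]
    exact and_iff_right (Finset.mem_univ _)
  rw [h]
  rfl

lemma conn_eq (n m : ℕ) :
    Nat.card {G : SimpleGraph (Fin n) // G.edgeSet.ncard = m ∧ G.Connected} =
      Pool.Agent.Pend.cnt (Pool.Agent.SPC.EX m) n := by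
  unfold Pool.Agent.Pend.cnt
  rw [Nat.subtype_card]
  intro G
  exact (Pool.Agent.Pend.MAIN_.mem_cc _ G).trans and_comm

/-- At every density almost all connected graphs have a reconstructible truncated clique lattice:
for every `ε > 0` and all large `n`, for every `m`, the number of graphs with `n` vertices and `m`
edges (connected or not) which are not reconstructible is at most `ε` times the number of connected
graphs with `n` vertices and `m` edges. -/
theorem result : ∀ ε : ℝ, 0 < ε → ∃ n₀ : ℕ, ∀ n m : ℕ, n₀ ≤ n →
    (Nat.card {G : SimpleGraph (Fin n) // G.edgeSet.ncard = m ∧ ¬ Reconstructible G} : ℝ) ≤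
      ε * (Nat.card {G : SimpleGraph (Fin n) // G.edgeSet.ncard = m ∧ G.Connected} : ℝ) := by
  intro ε hε
  obtain ⟨n₀, h⟩ := Pool.Agent.SPC.a_ALLD ε hε
  refine ⟨n₀, fun n m hn => ?_⟩
  rw [bad_eq, conn_eq]
  exact h n m hn

end Pool.Agent.Results.MP_552896_co.EveryDensity
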