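import Mathlib
import Pool.Agent.HER47.FinalX
import Pool.Agent.NRR.All
import Pool.Agent.NRW.All
import Pool.Agent.NRX.All

/-!
# Almost all members of large hereditary classes are reconstructible

Let `C` be a class of finite graphs closed under isomorphism and induced subgraphs, with `count C n`
members on `{0, ..., n-1}`, `bad C n` of which have a non-reconstructible truncated clique lattice.
We show that

* always `bad C n ≤ n ^ A * count C (n - 1)` for `n ≥ 3`, `A` an absolute constant;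

and that `bad C n` is much smaller than `count C n`

* for all large `n` if `C` is closed under disjoint unions or under joins and
  `count C n ≥ n ^ (A n)` for all large `n`;
* for infinitely many `n` if `count C n ≥ n ^ (A n)` for infinitely many `n`;
* for all large `n` if `count C n ≥ 2 ^ (δ n ^ 2)` for infinitely many `n`;
* for all large `n` if `C` is the class of the graphs without a (not necessarily induced) subgraph
  in a finite family of finite graphs, none of which is a forest.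

The first three statements also hold for the numbers `types C n`, `badTypes C n` of isomorphism
types.
-/

set_option autoImplicit false

namespace Pool.Agent.Results.MP_552896_co.HereditaryClasses

/-- The truncated clique lattice `T(G)` is reconstructible: every truncated clique lattice `T(H)`
with the same deck of maximal filter deleted subsets is isomorphic to `T(G)`. -/
def Reconstructible {V : Type} [Fintype V] (G : SimpleGraph V) : Prop :=
  ∀ (W : Type) [Fintype W] (H : SimpleGraph W) (f : V ≃ W),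
    (∀ v : V,
      Nonempty ({s : Finset V // s.Nonempty ∧ G.IsClique (s : Set V) ∧ v ∉ s} ≃o
        {t : Finset W // t.Nonempty ∧ H.IsClique (t : Set W) ∧ f v ∉ t})) →
    Nonempty ({s : Finset V // s.Nonempty ∧ G.IsClique (s : Set V)} ≃o
      {t : Finset W // t.Nonempty ∧ H.IsClique (t : Set W)})

/-- `C` is closed under isomorphisms and induced subgraphs of finite graphs. -/
def Hereditary (C : ∀ V : Type, SimpleGraph V → Prop) : Prop :=
  ∀ (V W : Type) [Finite W] (f : V ↪ W) (G : SimpleGraph W), C W G → C V (G.comap f)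

/-- `C` is closed under disjoint unions of finite graphs. -/
def UnionClosed (C : ∀ V : Type, SimpleGraph V → Prop) : Prop :=
  ∀ (V W : Type) [Finite V] [Finite W] (G : SimpleGraph V) (H : SimpleGraph W),
    C V G → C W H → C (V ⊕ W) (G.sum H)

/-- `C` is closed under joins (complements of disjoint unions of complements) of finite graphs. -/
def JoinClosed (C : ∀ V : Type, SimpleGraph V → Prop) : Prop :=
  ∀ (V W : Type) [Finite V] [Finite W] (G : SimpleGraph V) (H : SimpleGraph W),
    C V G → C W H → C (V ⊕ W) (Gᶜ.sum Hᶜ)ᶜ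

/-- The number of members of `C` on `{0, ..., n-1}`. -/
noncomputable def count (C : ∀ V : Type, SimpleGraph V → Prop) (n : ℕ) : ℕ :=
  Nat.card {G : SimpleGraph (Fin n) // C (Fin n) G}

/-- The number of members `G` of `C` on `{0, ..., n-1}` for which `T(G)` is not reconstructible. -/
noncomputable def bad (C : ∀ V : Type, SimpleGraph V → Prop) (n : ℕ) : ℕ :=
  Nat.card {G : SimpleGraph (Fin n) // C (Fin n) G ∧ ¬ Reconstructible G}

/-- The number of isomorphism types of members of `C` with `n` vertices. -/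
noncomputable def types (C : ∀ V : Type, SimpleGraph V → Prop) (n : ℕ) : ℕ :=
  {S : Set (SimpleGraph (Fin n)) | ∃ G : SimpleGraph (Fin n), C (Fin n) G ∧
    S = {G' | Nonempty (G ≃g G')}}.ncard

/-- The number of isomorphism types of members `G` of `C` with `n` vertices for which `T(G)` is not
reconstructible. -/
noncomputable def badTypes (C : ∀ V : Type, SimpleGraph V → Prop) (n : ℕ) : ℕ :=
  {S : Set (SimpleGraph (Fin n)) | ∃ G : SimpleGraph (Fin n), C (Fin n) G ∧
    ¬ Reconstructible G ∧ S = {G' | Nonempty (G ≃g G')}}.ncard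

/-- `C` has at least `n ^ (A n)` members on `{0, ..., n-1}`. -/
def Large (A : ℝ) (C : ∀ V : Type, SimpleGraph V → Prop) (n : ℕ) : Prop :=
  (n : ℝ) ^ (A * n) ≤ (count C n : ℝ)

/-- `C` has at least `2 ^ (80 n (log₂ n) ^ 3)` members on `{0, ..., n-1}`. -/
def VeryLarge (C : ∀ V : Type, SimpleGraph V → Prop) (n : ℕ) : Prop :=
  (2 : ℝ) ^ (80 * (n : ℝ) * (Real.logb 2 n) ^ 3) ≤ (count C n : ℝ)

theorem result :
    -- hereditary classes with at least `n ^ (A n)` members, `A` an absolute constant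
    (∃ A : ℝ, 0 < A ∧
      (∀ C : ∀ V : Type, SimpleGraph V → Prop, Hereditary C → ∀ n : ℕ, 3 ≤ n →
        (bad C n : ℝ) ≤ (n : ℝ) ^ A * (count C (n - 1) : ℝ) ∧
        (badTypes C n : ℝ) ≤ (n : ℝ) ^ A * (types C (n - 1) : ℝ)) ∧
      (∀ C : ∀ V : Type, SimpleGraph V → Prop, Hereditary C → (UnionClosed C ∨ JoinClosed C) →
        (∃ N : ℕ, ∀ n : ℕ, N ≤ n → Large A C n) →
        ∃ N : ℕ, ∀ n : ℕ, N ≤ n →
          (2 : ℝ) ^ ((n : ℝ) / Real.logb 2 n ^ 3) * (bad C n : ℝ) ≤ (count C n : ℝ) ∧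
          (2 : ℝ) ^ ((n : ℝ) / Real.logb 2 n ^ 3) * (badTypes C n : ℝ) ≤ (types C n : ℝ)) ∧
      (∀ C : ∀ V : Type, SimpleGraph V → Prop, Hereditary C →
        (∀ N : ℕ, ∃ n : ℕ, N ≤ n ∧ Large A C n) →
        (∀ N : ℕ, ∃ n : ℕ, N ≤ n ∧
          (2 : ℝ) ^ ((n : ℝ) / Real.logb 2 n ^ 3) * (bad C n : ℝ) ≤ (count C n : ℝ)) ∧
        (∀ N : ℕ, ∃ n : ℕ, N ≤ n ∧
          (2 : ℝ) ^ ((n : ℝ) / Real.logb 2 n ^ 3) * (badTypes C n : ℝ) ≤
            (types C n : ℝ)))) ∧
    -- larger hereditary classes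
    (∀ C : ∀ V : Type, SimpleGraph V → Prop, Hereditary C → (UnionClosed C ∨ JoinClosed C) →
      (∃ N : ℕ, ∀ n : ℕ, N ≤ n → VeryLarge C n) →
      ∃ N : ℕ, ∀ n : ℕ, N ≤ n → n ^ n * bad C n ≤ count C n) ∧
    (∀ C : ∀ V : Type, SimpleGraph V → Prop, Hereditary C →
      (∀ N : ℕ, ∃ n : ℕ, N ≤ n ∧ VeryLarge C n) →
      ∀ N : ℕ, ∃ n : ℕ, N ≤ n ∧ n ^ n * bad C n ≤ count C n) ∧
    -- hereditary classes with `2 ^ (δ n ^ 2)` members
    (∀ C : ∀ V : Type, SimpleGraph V → Prop, Hereditary C → ∀ δ : ℝ, 0 < δ →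
      (∀ N : ℕ, ∃ n : ℕ, N ≤ n ∧ (2 : ℝ) ^ (δ * (n : ℝ) ^ 2) ≤ (count C n : ℝ)) →
      ∀ ε : ℝ, 0 < ε → ∃ N : ℕ, ∀ n : ℕ, N ≤ n →
        (bad C n : ℝ) ≤ 2 ^ ((2 / 9 + ε) * (n : ℝ) ^ 2) ∧ 2 ^ (n ^ 2 / 4) ≤ count C n) ∧
    -- the graphs without a subgraph in a finite family of graphs which are not forests
    (∀ (ι : Type) (W : ι → Type) [∀ i, Finite (W i)] (F : ∀ i, SimpleGraph (W i)) (k : ℕ),
      (∀ i, Nat.card (W i) ≤ k ∧ ¬ (F i).IsAcyclic) →
      ∃ N : ℕ, ∀ n : ℕ, N ≤ n →
        n ^ n * bad (fun _ G => ∀ i, (F i).Free G) n ≤ count (fun _ G => ∀ i, (F i).Free G) n) := by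
  refine ⟨?_, fun C hC hU hB => ?_, fun C hC hB => ?_, fun C hC δ hδ hB ε hε => ?_,
    fun ι W _ F k hF => ?_⟩
  · exact Pool.Agent.NRX.final_both Pool.Agent.NRR.a_SUR Pool.Agent.NRR.a_INR
      Pool.Agent.NRR.a_BN1 Pool.Agent.NRW.a_HCU Pool.Agent.NRX.a_FIU
  · exact Pool.Agent.HER47.final_union C hC hU hB
  · exact Pool.Agent.HER47.final_inf C hC hB
  · exact Pool.Agent.HER47.final_quad C hC δ hδ hB ε hε
  · exact Pool.Agent.HER47.final_fr ι W F k hF

end Pool.Agent.Results.MP_552896_co.HereditaryClasses
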