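import Mathlib
import Pool.Agent.NRU.All4
import Pool.Agent.NRW.All
import Pool.Agent.NRY.All

/-!
# The number of reconstructions of a deck is polynomial, and often one

There is a constant `C > 0` such that the following holds for every graph `G` on `n ≥ 3` vertices.

1. At most `n ^ (m + 3)` pairwise non-isomorphic truncated clique lattices have the same deck of
   maximal filter deleted subsets as `T(G)`, where `m` is any of the numbers
   `C`, or `16 (log₂ D)²`, if `D` bounds the degrees of `G` or the degrees of the complement of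
   `G`, or `m ≥ 1`, if some two vertices of `G` are distinguished by at most `m` others.
   (A vertex distinguishes `u` and `v` if it is adjacent to exactly one of them.)
2. For any `t` graphs `F_j` on `n - 1` vertices there are at most `t n ^ C` pairwise non-isomorphic
   truncated clique lattices `T(H)`, `H` a graph on `n` vertices, which are not reconstructible and
   all of whose maximal filter deleted subsets are isomorphic to some of the `T(F_j)`.
3. `T(G)` is reconstructible if any two vertices are distinguished by at least `C log₂ D` others,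
   where `D ≥ 2` bounds the degrees of `G` or the degrees of the complement of `G`, or if outside
   a set of at most `n / (C log₂ n)` vertices any two vertices are distinguished by at least
   `C log₂ n` others.
4. At most a fraction `1 / n` of the graphs which differ from `G` in exactly `k` pairs of vertices
   are not reconstructible, for `C n log₂ n ≤ k ≤ n (n - 1) / 2 - C n log₂ n`, and at most a
   fraction `2 ^ (-s / 2)` of the graphs which agree with `G` on the pairs of vertices outside a
   given set of `s ≥ C log₂ n` vertices.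
-/

set_option autoImplicit false

namespace Pool.Agent.Results.MP_552896_co.NumberOfReconstructions

/-- The truncated clique lattice `T(G)` is reconstructible: every truncated clique lattice `T(H)`
with the same deck of maximal filter deleted subsets is isomorphic to `T(G)`. -/
def Reconstructible {V : Type} [Fintype V] (G : SimpleGraph V) : Prop :=
  ∀ (W : Type) [Fintype W] (H : SimpleGraph W) (f : V ≃ W),
    (∀ v : V,
      Nonempty ({s : Finset V // s.Nonempty ∧ G.IsClique (s : Set V) ∧ v ∉ s} ≃o
        {t : Finset W // t.Nonempty ∧ H.IsClique (t : Set W) ∧ f v ∉ t})) →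
    Nonempty ({s : Finset V // s.Nonempty ∧ G.IsClique (s : Set V)} ≃o
      {t : Finset W // t.Nonempty ∧ H.IsClique (t : Set W)})

theorem result : ∃ C : ℝ, 0 < C ∧
    -- (1) the number of reconstructions
    (∀ (V : Type) [Fintype V] (G : SimpleGraph V), 3 ≤ Fintype.card V → ∀ m : ℝ,
      -- `m` is at least the absolute constant `C`, or
      (C ≤ m ∨
      -- `m` is at least `16 (log₂ D)²`, where all degrees of `G` are at most `D`, or all degrees
      -- of its complement are at most `D`, or
      (∃ D : ℕ, 16 * (Real.logb 2 D) ^ 2 ≤ m ∧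
        ((∀ v, (G.neighborSet v).ncard ≤ D) ∨ ∀ v, (Gᶜ.neighborSet v).ncard ≤ D)) ∨
      -- `m ≥ 1` and some two vertices are distinguished by at most `m` other vertices
      (1 ≤ m ∧ ∃ u v, u ≠ v ∧
        ({w : V | w ≠ u ∧ w ≠ v ∧ ¬ (G.Adj w u ↔ G.Adj w v)}.ncard : ℝ) ≤ m)) →
      -- a finite family of graphs `H i`
      ∀ (ι : Type) [Fintype ι] (W : ι → Type) [∀ i, Fintype (W i)] (H : ∀ i, SimpleGraph (W i))
      -- every `T(H i)` has the same deck as `T(G)`
      (f : ∀ i, V ≃ W i),
      (∀ i, ∀ v : V,
        Nonempty ({s : Finset V // s.Nonempty ∧ G.IsClique (s : Set V) ∧ v ∉ s} ≃o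
          {t : Finset (W i) // t.Nonempty ∧ (H i).IsClique (t : Set (W i)) ∧ f i v ∉ t})) →
      -- the `T(H i)` are pairwise non-isomorphic
      (∀ i j, i ≠ j →
        ¬ Nonempty ({s : Finset (W i) // s.Nonempty ∧ (H i).IsClique (s : Set (W i))} ≃o
          {t : Finset (W j) // t.Nonempty ∧ (H j).IsClique (t : Set (W j))})) →
      -- then there are at most `n ^ (m + 3)` of them
      (Fintype.card ι : ℝ) ≤ (Fintype.card V : ℝ) ^ (m + 3)) ∧
    -- (2) graphs on `n` vertices with all cards in a list of `t` graphs on `n - 1` vertices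
    (∀ n t : ℕ, 3 ≤ n → ∀ (F : Fin t → SimpleGraph (Fin (n - 1))) (ι : Type) [Fintype ι]
      (H : ι → SimpleGraph (Fin n)),
      -- no `T(H i)` is reconstructible
      (∀ i, ¬ Reconstructible (H i)) →
      -- every maximal filter deleted subset of `T(H i)` is isomorphic to some `T(F j)`
      (∀ i, ∀ v : Fin n, ∃ j : Fin t,
        Nonempty ({s : Finset (Fin n) // s.Nonempty ∧ (H i).IsClique (s : Set (Fin n)) ∧ v ∉ s} ≃o
          {s : Finset (Fin (n - 1)) // s.Nonempty ∧
            (F j).IsClique (s : Set (Fin (n - 1)))})) →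
      -- the `T(H i)` are pairwise non-isomorphic
      (∀ i j, i ≠ j →
        ¬ Nonempty ({s : Finset (Fin n) // s.Nonempty ∧ (H i).IsClique (s : Set (Fin n))} ≃o
          {s : Finset (Fin n) // s.Nonempty ∧ (H j).IsClique (s : Set (Fin n))})) →
      -- then there are at most `t n ^ C` of them
      (Fintype.card ι : ℝ) ≤ t * (n : ℝ) ^ C) ∧
    -- (3) graphs with large differences
    (∀ (V : Type) [Fintype V] (G : SimpleGraph V), 3 ≤ Fintype.card V →
      -- any two vertices are distinguished by at least `C log₂ D` others, or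
      ((∃ D : ℕ, 2 ≤ D ∧
        ((∀ v, (G.neighborSet v).ncard ≤ D) ∨ ∀ v, (Gᶜ.neighborSet v).ncard ≤ D) ∧
        ∀ u v, u ≠ v → C * Real.logb 2 D ≤
          ({w : V | w ≠ u ∧ w ≠ v ∧ ¬ (G.Adj w u ↔ G.Adj w v)}.ncard : ℝ)) ∨
      -- outside at most `n / (C log₂ n)` vertices all differences are at least `C log₂ n`
      (∃ Y : Finset V, C * Real.logb 2 (Fintype.card V) * Y.card ≤ Fintype.card V ∧
        ∀ u v, u ∉ Y → v ∉ Y → u ≠ v → C * Real.logb 2 (Fintype.card V) ≤
          ({w : V | w ≠ u ∧ w ≠ v ∧ ¬ (G.Adj w u ↔ G.Adj w v)}.ncard : ℝ))) →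
      Reconstructible G) ∧
    -- (4) few of the graphs that differ from `G` in exactly `k` pairs are not reconstructible
    (∀ (V : Type) [Fintype V] (G : SimpleGraph V) (k : ℕ), 3 ≤ Fintype.card V →
      C * Fintype.card V * Real.logb 2 (Fintype.card V) ≤ k →
      C * Fintype.card V * Real.logb 2 (Fintype.card V) ≤
        (Fintype.card V : ℝ) * (Fintype.card V - 1) / 2 - k →
      (Fintype.card V : ℝ) * {H : SimpleGraph V | (symmDiff G.edgeSet H.edgeSet).ncard = k ∧
          ¬ Reconstructible H}.ncard ≤
        {H : SimpleGraph V | (symmDiff G.edgeSet H.edgeSet).ncard = k}.ncard) ∧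
    -- and few of the graphs that agree with `H` outside `S`
    (∀ (V : Type) [Fintype V] (H : SimpleGraph V) (S : Finset V), 3 ≤ Fintype.card V →
      C * Real.logb 2 (Fintype.card V) ≤ S.card →
      ({G : SimpleGraph V | (∀ x y, x ∉ S → y ∉ S → (G.Adj x y ↔ H.Adj x y)) ∧
          ¬ Reconstructible G}.ncard : ℝ) ≤ (2 : ℝ) ^ (-(S.card : ℝ) / 2) *
        {G : SimpleGraph V | ∀ x y, x ∉ S → y ∉ S → (G.Adj x y ↔ H.Adj x y)}.ncard) := by
  obtain ⟨C, hC, h1, h2, h3, h4, h5⟩ := Pool.Agent.NRY.all_six Pool.Agent.NRU.a_UFN
    Pool.Agent.NRU.a_SMO Pool.Agent.NRW.a_LFT Pool.Agent.NRY.a_FLP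
  exact ⟨C, hC, h2, h1, h3, h4, h5⟩

end Pool.Agent.Results.MP_552896_co.NumberOfReconstructions
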