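import Mathlib
import Pool.Agent.SPC.All2

/-!
# Almost all planar graphs have a reconstructible truncated clique lattice

The same for every class of graphs defined by excluded minors of minimum degree at least 2, and for
all classes of graphs which are closed under adding and deleting leaves and do not grow too
irregularly.
-/

set_option autoImplicit false

namespace Pool.Agent.Results.MP_552896_co.SparseClasses

open Filter Topology

/-- The truncated clique lattice `T(G)` is reconstructible: every truncated clique lattice `T(H)`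
with the same deck of maximal filter deleted subsets is isomorphic to `T(G)`. -/
def Reconstructible {V : Type} [Fintype V] (G : SimpleGraph V) : Prop :=
  ∀ (W : Type) [Fintype W] (H : SimpleGraph W) (f : V ≃ W),
    (∀ v : V,
      Nonempty ({s : Finset V // s.Nonempty ∧ G.IsClique (s : Set V) ∧ v ∉ s} ≃o
        {t : Finset W // t.Nonempty ∧ H.IsClique (t : Set W) ∧ f v ∉ t})) →
    Nonempty ({s : Finset V // s.Nonempty ∧ G.IsClique (s : Set V)} ≃o
      {t : Finset W // t.Nonempty ∧ H.IsClique (t : Set W)})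

/-- `H` is a minor of `G`: there are pairwise disjoint connected vertex sets `f a` of `G`, one for
each vertex `a` of `H`, and an edge between `f a` and `f b` for each edge `ab` of `H`. -/
def Minor {W V : Type} (H : SimpleGraph W) (G : SimpleGraph V) : Prop :=
  ∃ f : W → Set V, (∀ a, (G.induce (f a)).Connected) ∧ (∀ a b, a ≠ b → Disjoint (f a) (f b)) ∧
    ∀ a b, H.Adj a b → ∃ x ∈ f a, ∃ y ∈ f b, G.Adj x y

/-- `H` is finite and every vertex of `H` has at least two neighbours. -/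
def MinDegreeTwo {W : Type} (H : SimpleGraph W) : Prop :=
  Finite W ∧ ∀ v : W, ∃ a b, a ≠ b ∧ H.Adj v a ∧ H.Adj v b

/-- `G` has no minor in the family `F` of graphs. -/
def FreeOf (F : (W : Type) → SimpleGraph W → Prop) (V : Type) (G : SimpleGraph V) : Prop :=
  ∀ (W : Type) (H : SimpleGraph W), F W H → ¬ Minor H G

/-- `G` is planar: neither `K_5` nor `K_{3,3}` is a minor of `G` (Wagner's theorem). -/
def Planar (V : Type) (G : SimpleGraph V) : Prop :=
  ¬ Minor (⊤ : SimpleGraph (Fin 5)) G ∧ ¬ Minor (completeBipartiteGraph (Fin 3) (Fin 3)) G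

/-- `C` is closed under isomorphism and under adding and deleting leaves (vertices of degree 1) of
finite connected graphs. -/
structure LeafStable (C : (V : Type) → SimpleGraph V → Prop) : Prop where
  iso : ∀ (V W : Type) (G : SimpleGraph V) (H : SimpleGraph W), Nonempty (G ≃g H) → C V G → C W H
  leaf : ∀ (V : Type) [Finite V] (G : SimpleGraph V) (v u : V), G.Connected →
    (∀ w, G.Adj v w ↔ w = u) → (C V G ↔ C ({w | w ≠ v} : Set V) (G.induce {w | w ≠ v}))

/-- The number of connected members of `C` with the vertex set `{0, ..., n - 1}`. -/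
noncomputable def conn (C : (V : Type) → SimpleGraph V → Prop) (n : ℕ) : ℝ :=
  Nat.card {G : SimpleGraph (Fin n) // G.Connected ∧ C (Fin n) G}

/-- At most `ε * conn C n` members of `C` (connected or not) with the vertex set
`{0, ..., n - 1}` have a truncated clique lattice which is not reconstructible. -/
def Few (C : (V : Type) → SimpleGraph V → Prop) (ε : ℝ) (n : ℕ) : Prop :=
  (Nat.card {G : SimpleGraph (Fin n) // C (Fin n) G ∧ ¬ Reconstructible G} : ℝ) ≤ ε * conn C n

lemma conn_eq (C : (V : Type) → SimpleGraph V → Prop) (n : ℕ) :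
    conn C n = (Pool.Agent.Pend.cnt C n : ℝ) := by
  unfold conn Pool.Agent.Pend.cnt
  rw [Nat.subtype_card]
  intro G
  exact Pool.Agent.Pend.MAIN_.mem_cc C G

lemma minor_iso {W U V : Type} {H : SimpleGraph W} {K : SimpleGraph U} {G : SimpleGraph V}
    (e : H ≃g K) (h : Minor H G) : Minor K G := by
  obtain ⟨f, h1, h2, h3⟩ := h
  refine ⟨fun u => f (e.symm u), fun a => h1 _, fun a b hab => h2 _ _ ?_, fun a b hab => h3 _ _ ?_⟩
  · exact fun h => hab (e.symm.injective h)
  · exact e.symm.map_adj_iff.2 hab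

open Classical in
lemma few_iff (C : (V : Type) → SimpleGraph V → Prop) (ε : ℝ) (n : ℕ) :
    Few C ε n ↔ ((Finset.univ.filter (fun G : SimpleGraph (Fin n) =>
      C (Fin n) G ∧ ¬ Pool.Agent.Pend.Rec G)).card : ℝ) ≤
        ε * ((Pool.Agent.Pend.cc C (Fin n)).card : ℝ) := by
  unfold Few
  rw [conn_eq]
  have h : Nat.card {G : SimpleGraph (Fin n) // C (Fin n) G ∧ ¬ Reconstructible G} =
      (Finset.univ.filter (fun G : SimpleGraph (Fin n) =>
      C (Fin n) G ∧ ¬ Pool.Agent.Pend.Rec G)).card := by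
    rw [Nat.subtype_card]
    intro G
    rw [Finset.mem_filter]
    exact and_iff_right (Finset.mem_univ _)
  rw [h]
  exact Iff.rfl

lemma few_of_bb (C : (V : Type) → SimpleGraph V → Prop) (ε : ℝ) (n : ℕ)
    (h : (Pool.Agent.SPC.bb C n : ℝ) ≤ ε * (Pool.Agent.Pend.cnt C n : ℝ)) : Few C ε n :=
  (few_iff C ε n).2 h

theorem result :
    -- every leaf stable class, uniformly in the class
    (∀ A ε : ℝ, 0 < ε → ∃ n₀ : ℕ, ∀ n : ℕ, n₀ ≤ n →
      ∀ C : (V : Type) → SimpleGraph V → Prop, LeafStable C →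
        conn C (n + 1) ≤ A * ((n : ℝ) + 1) * conn C n → Few C ε n) ∧
    -- almost all members of a leaf stable class with a growth constant
    (∀ C : (V : Type) → SimpleGraph V → Prop, LeafStable C →
      ∀ γ : ℝ, Tendsto (fun n : ℕ => (conn C n / (n.factorial : ℝ)) ^ (1 / (n : ℝ)))
        atTop (𝓝 γ) →
      ∀ ε : ℝ, 0 < ε → ∃ n₀ : ℕ, ∀ n : ℕ, n₀ ≤ n → Few C ε n) ∧
    -- almost all planar graphs
    (∀ ε : ℝ, 0 < ε → ∃ n₀ : ℕ, ∀ n : ℕ, n₀ ≤ n → Few Planar ε n) ∧
    -- almost all graphs without minor in a nonempty family of graphs of minimum degree at least 2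
    (∀ F : (W : Type) → SimpleGraph W → Prop,
      (∀ (W : Type) (H : SimpleGraph W), F W H → MinDegreeTwo H) → (∃ W H, F W H) →
      ∀ ε : ℝ, 0 < ε → ∃ n₀ : ℕ, ∀ n : ℕ, n₀ ≤ n → Few (FreeOf F) ε n) := by
  have hM : ∀ F : (W : Type) → SimpleGraph W → Prop,
      (∀ (W : Type) (H : SimpleGraph W), F W H → MinDegreeTwo H) → (∃ W H, F W H) →
      ∀ ε : ℝ, 0 < ε → ∃ n₀ : ℕ, ∀ n : ℕ, n₀ ≤ n → Few (FreeOf F) ε n := by
    intro F hF hne ε hε
    obtain ⟨n₀, h⟩ := Pool.Agent.SPC.a_MAINM F hF hne ε hε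
    exact ⟨n₀, fun n hn => few_of_bb (FreeOf F) ε n (h n hn)⟩
  refine ⟨?_, ?_, ?_, hM⟩
  · intro A ε hε
    obtain ⟨n₀, h⟩ := Pool.Agent.SPC.a_MAINV A ε hε
    refine ⟨n₀, fun n hn C hC hr => few_of_bb C ε n (h n hn C ⟨hC.iso, hC.leaf⟩ ?_)⟩
    rw [conn_eq, conn_eq] at hr
    exact hr
  · intro C hC γ hγ ε hε
    have hγ' : Tendsto (fun n : ℕ => Pool.Agent.Pend.aa C n ^ (1 / (n : ℝ))) atTop (𝓝 γ) := by
      refine hγ.congr (fun n => ?_)
      rw [conn_eq]
      rfl
    obtain ⟨n₀, h⟩ := Pool.Agent.Pend.a_MAIN C ⟨hC.iso, hC.leaf⟩ γ hγ' ε hε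
    exact ⟨n₀, fun n hn => (few_iff C ε n).2 (h n hn)⟩
  · intro ε hε
    have hK : ∀ (W : Type) (H : SimpleGraph W), (Nonempty (H ≃g (⊤ : SimpleGraph (Fin 5))) ∨
        Nonempty (H ≃g completeBipartiteGraph (Fin 3) (Fin 3))) → MinDegreeTwo H := by
      rintro W H (⟨⟨e⟩⟩ | ⟨⟨e⟩⟩)
      · refine ⟨Finite.of_equiv _ e.toEquiv.symm, fun v => ?_⟩
        have h5 : ∀ x : Fin 5, ∃ a b : Fin 5, a ≠ b ∧ x ≠ a ∧ x ≠ b := by decide
        obtain ⟨a, b, hab, ha, hb⟩ := h5 (e v)
        refine ⟨e.symm a, e.symm b, fun h => hab (e.symm.injective h), ?_, ?_⟩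
        · rw [← e.map_adj_iff, SimpleGraph.top_adj]
          simpa using ha
        · rw [← e.map_adj_iff, SimpleGraph.top_adj]
          simpa using hb
      · refine ⟨Finite.of_equiv _ e.toEquiv.symm, fun v => ?_⟩
        have h33 : ∀ x : Fin 3 ⊕ Fin 3, ∃ a b : Fin 3 ⊕ Fin 3, a ≠ b ∧
            (completeBipartiteGraph (Fin 3) (Fin 3)).Adj x a ∧
            (completeBipartiteGraph (Fin 3) (Fin 3)).Adj x b := by
          rintro (x | x)
          · exact ⟨Sum.inr 0, Sum.inr 1, by simp, by simp, by simp⟩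
          · exact ⟨Sum.inl 0, Sum.inl 1, by simp, by simp, by simp⟩
        obtain ⟨a, b, hab, ha, hb⟩ := h33 (e v)
        refine ⟨e.symm a, e.symm b, fun h => hab (e.symm.injective h), ?_, ?_⟩
        · rw [← e.map_adj_iff, RelIso.apply_symm_apply]
          exact ha
        · rw [← e.map_adj_iff, RelIso.apply_symm_apply]
          exact hb
    obtain ⟨n₀, hn₀⟩ := hM
      (fun W H => Nonempty (H ≃g (⊤ : SimpleGraph (Fin 5))) ∨
        Nonempty (H ≃g completeBipartiteGraph (Fin 3) (Fin 3))) hK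
      ⟨Fin 5, ⊤, Or.inl ⟨SimpleGraph.Iso.refl⟩⟩ ε hε
    refine ⟨n₀, fun n hn => ?_⟩
    have h := hn₀ n hn
    have heq : FreeOf (fun W H => Nonempty (H ≃g (⊤ : SimpleGraph (Fin 5))) ∨
      Nonempty (H ≃g completeBipartiteGraph (Fin 3) (Fin 3))) = Planar := by
      funext V G
      apply propext
      constructor
      · intro hG
        exact ⟨hG _ _ (Or.inl ⟨SimpleGraph.Iso.refl⟩), hG _ _ (Or.inr ⟨SimpleGraph.Iso.refl⟩)⟩
      · rintro ⟨hG5, hG33⟩ W H (⟨⟨e⟩⟩ | ⟨⟨e⟩⟩) hm
        · exact hG5 (minor_iso e hm)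
        · exact hG33 (minor_iso e hm)
    rw [← heq]
    exact h

end Pool.Agent.Results.MP_552896_co.SparseClasses
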